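import Pool.Agent.V1167.PP.Main

set_option autoImplicit false

/-!
MP_3d0d30_nt. The moments of real order `2k ≥ 4` near the critical line, with the law of the phases.

Let `k ≥ 2` be real, `δ(T) → 0` and `δ(T) log T → ∞`. Off a set of measure `o(δ^(2k) T)` where
`|ζ(1/2 + δ + it)| > δ^(-1-k/2)`, the `2k`-th moment on the line `Re s = 1/2 + δ` is asymptotic to
`a(k) (2δ)^(-k²) T` and, with respect to the weight `|ζ|^(2k)`, the family `(p^(it))_p` converges in law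
to independent points `e(θ_p)`, `θ_p` with density proportional to `|1 - e(θ) / √p|^(-2k)`,
asymptotically independent of `log |ζ|`, which is asymptotically normal with mean `k log (1/(2δ))` and
variance `(1/2) log (1/(2δ))`.
-/

open Filter MeasureTheory Topology

namespace Pool.Agent.Results.MP_3d0d30_nt.PrimePhases

/-- The coefficient `s (s + 1) ⋯ (s + m - 1) / m!` of `x^m` in `(1 - x)^(-s)`. -/
noncomputable def ds (s : ℝ) (m : ℕ) : ℝ := ∏ i ∈ Finset.range m, (s + i) / ((i : ℝ) + 1)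

/-- The arithmetic factor `a(s) = ∏_p (1 - 1/p)^(s²) ∑_m ds(m)² p^(-m)`. -/
noncomputable def ak (s : ℝ) : ℝ :=
  ∏' p : Nat.Primes, ((1 - 1 / (p : ℝ)) ^ (s ^ 2) * ∑' m : ℕ, ds s m ^ 2 * (1 / (p : ℝ)) ^ m)

/-- `|ζ(1/2 + δ + it)|`. -/
noncomputable def Z (δ t : ℝ) : ℝ := ‖riemannZeta (((1 / 2 + δ : ℝ) : ℂ) + t * Complex.I)‖

/-- `log |ζ|` minus `s log (1/(2δ))`, divided by `√((1/2) log (1/(2δ)))`. -/
noncomputable def N (s δ t : ℝ) : ℝ :=
  (Real.log (Z δ t) - s * Real.log (1 / (2 * δ))) / Real.sqrt (Real.log (1 / (2 * δ)) / 2)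

/-- `e(x) = exp(2πix)`. -/
noncomputable def e (x : ℝ) : ℂ := Complex.exp (2 * Real.pi * Complex.I * x)

/-- The `2s`-th power `|1 - e(x) / √p|^(-2s)` of the Euler factor at `p`. -/
noncomputable def euler (s : ℝ) (p : ℕ) (x : ℝ) : ℝ := ‖1 - e x / (Real.sqrt p : ℂ)‖ ^ (-(2 * s))

/-- The probability measure on `[0, 1]` whose density is proportional to `|1 - e(x) / √p|^(-2s)`. -/
noncomputable def phaseLaw (s : ℝ) (p : ℕ) : Measure ℝ :=
  (volume.restrict (Set.Icc (0:ℝ) 1)).withDensity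
    fun x => ENNReal.ofReal (euler s p x / ∫ y in Set.Icc (0:ℝ) 1, euler s p y)

/-- Let `k ≥ 2` be real, `δ(T) → 0` and `δ(T) log T → ∞`. There are sets `E(T) ⊆ [0, T]` of measure
`o(δ^(2k) T)` on which `|ζ(1/2 + δ + it)| > δ^(-1-k/2)`, such that for all bounded continuous
`F : ℝ → ℝ` and all continuous functions `G` of the family `(p^(it))_p` indexed by all the primes

`(2δ)^(k²) (1/T) ∫_{[0,T] \ E(T)} |ζ|^(2k) F(N) G((p^(it))_p) dt → a(k) (∫ F dγ) 𝔼 G((e(θ_p))_p)`,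

where `ζ = ζ(1/2 + δ + it)`, `N = (log |ζ| - k log (1/(2δ))) / √((1/2) log (1/(2δ)))`, `γ` is the
standard normal law and the `θ_p` are independent with laws `phaseLaw k p`. -/
theorem result (k : ℝ) (hk : 2 ≤ k) (δ : ℝ → ℝ) (hδ : Tendsto δ atTop (𝓝 0))
    (hδL : Tendsto (fun T : ℝ => δ T * Real.log T) atTop atTop) :
    ∃ E : ℝ → Set ℝ,
      (∀ T, MeasurableSet (E T) ∧ E T ⊆ Set.Icc 0 T ∧ ∀ t ∈ E T, (δ T) ^ (-(1 + k / 2)) < Z (δ T) t) ∧
      Tendsto (fun T => (volume (E T)).toReal / (T * (δ T) ^ (2 * k))) atTop (𝓝 0) ∧ 0 < ak k ∧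
      ∀ F : BoundedContinuousFunction ℝ ℝ, ∀ G : (Nat.Primes → ℂ) → ℂ, Continuous G →
        Tendsto (fun T : ℝ => (((2 * δ T) ^ (k ^ 2) / T : ℝ) : ℂ) *
          ∫ t in Set.Icc 0 T \ E T, ((Z (δ T) t ^ (2 * k) * F (N k (δ T) t) : ℝ) : ℂ) *
            G (fun p => ((p : ℕ) : ℂ) ^ ((t:ℂ) * Complex.I))) atTop
          (𝓝 (((ak k * ∫ x, F x ∂(ProbabilityTheory.gaussianReal 0 1) : ℝ) : ℂ) *
            ∫ θ, G (fun p => e (θ p)) ∂(Measure.infinitePi fun p : Nat.Primes => phaseLaw k p))) := by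
  obtain ⟨E, hE, hvol, hm⟩ := Pool.Agent.V1167.PP.prime_phases hδ hδL (κ := k / 2 - 1) (by linarith)
  have e1 : (4 + 4 * (k / 2 - 1) : ℝ) = 2 * k := by ring
  have e2 : (-(2 + (k / 2 - 1)) : ℝ) = -(1 + k / 2) := by ring
  rw [e1] at hvol
  obtain ⟨h1, h2⟩ := hm k (by linarith) (Or.inr (by linarith))
  refine ⟨E, fun T => ⟨(hE T).1, (hE T).2.1, fun t ht => ?_⟩, hvol, h1, fun F G hG => h2 F G hG⟩
  rw [← e2]; exact (hE T).2.2 t ht

end Pool.Agent.Results.MP_3d0d30_nt.PrimePhases
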