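import Pool.Agent.V11265.WR1

/-!
# Moments of zeta of high order: the inequality of Q2 in the range `T ≤ k ^ ((3 - ε) k)`
-/

set_option autoImplicit false

namespace Pool.Agent.Results.MP_3d0d30_nt.WeylRange

open Complex Pool.Agent.TH158.FM Pool.Agent.V11265.WR

/-- `M_k(T) = ∫_0^T |ζ(1/2 + it)|^{2k} dt` -/
noncomputable def M (k T : ℝ) : ℝ := ∫ t in (0:ℝ)..T, ‖riemannZeta (1 / 2 + t * I)‖ ^ (2 * k)

lemma M_eq (k T : ℝ) : M k T = MM k T := by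
  unfold M MM
  congr 1
  funext t
  rw [pt_half]

theorem result :
    (∀ δ : ℝ, 0 < δ → ∃ C : ℝ, 1 ≤ C ∧ ∀ k T : ℝ, 2 ≤ k → 1000 ≤ T →
      C * T ^ (1 / 6 + δ) ≤ Real.log T ^ ((k + 2) / 2) →
      M k T ≤ 4 / 5 * (T * Real.log T ^ (k ^ 2))) ∧
    (∀ ε : ℝ, 0 < ε → ∃ k₀ : ℝ, 2 ≤ k₀ ∧ ∀ k T : ℝ, k₀ ≤ k → 1000 ≤ T →
      T ≤ k ^ ((3 - ε) * k) → M k T ≤ 4 / 5 * (T * Real.log T ^ (k ^ 2))) := by
  refine ⟨fun δ hδ => ?_, fun ε hε => ?_⟩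
  · obtain ⟨C, h1, h2⟩ := criterion δ hδ
    exact ⟨C, h1, fun k T hk hT h => by rw [M_eq]; exact h2 k T hk hT h⟩
  · obtain ⟨k₀, h1, h2⟩ := range_k ε hε
    exact ⟨k₀, h1, fun k T hk hT h => by rw [M_eq]; exact h2 k T hk hT h⟩

end Pool.Agent.Results.MP_3d0d30_nt.WeylRange
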